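import Mathlib

open MeasureTheory
open scoped ContDiff InnerProductSpace

namespace Pool.Agent.MP_7afc88_an

/-- Test functions on `Ω`: smooth, compactly supported, with support inside `Ω`. -/
def IsTestFunction {N : ℕ} (Ω : Set (EuclideanSpace ℝ (Fin N)))
    (φ : EuclideanSpace ℝ (Fin N) → ℝ) : Prop :=
  ContDiff ℝ ∞ φ ∧ HasCompactSupport φ ∧ tsupport φ ⊆ Ω

/-- The function `F` represents the distributional Laplacian of `v` on `Ω`. -/
def IsWeakLaplacian {N : ℕ} (Ω : Set (EuclideanSpace ℝ (Fin N)))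
    (v F : EuclideanSpace ℝ (Fin N) → ℝ) : Prop :=
  ∀ φ : EuclideanSpace ℝ (Fin N) → ℝ, IsTestFunction Ω φ →
    ∫ x in Ω, v x * Laplacian.laplacian φ x = ∫ x in Ω, F x * φ x

/-- The locally integrable vector field `G` is the weak gradient of `v` on `Ω`. -/
def IsWeakGradient {N : ℕ} (Ω : Set (EuclideanSpace ℝ (Fin N)))
    (v : EuclideanSpace ℝ (Fin N) → ℝ)
    (G : EuclideanSpace ℝ (Fin N) → EuclideanSpace ℝ (Fin N)) : Prop :=
  LocallyIntegrableOn G Ω volume ∧
    ∀ φ : EuclideanSpace ℝ (Fin N) → ℝ, IsTestFunction Ω φ → ∀ e : EuclideanSpace ℝ (Fin N),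
      ∫ x in Ω, v x * fderiv ℝ φ x e = -∫ x in Ω, ⟪G x, e⟫_ℝ * φ x

/-- The second derivative of `Φ` exists at `t` and equals `a`: the first derivative exists at `t`
and, as a function on the set where it exists, it has derivative `a` at `t`. -/
def HasSecondDerivAt (Φ : ℝ → ℝ) (a t : ℝ) : Prop :=
  DifferentiableAt ℝ Φ t ∧ HasDerivWithinAt (deriv Φ) a {s : ℝ | DifferentiableAt ℝ Φ s} t

end Pool.Agent.MP_7afc88_an
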